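import Pool.Agent.H626.SE.Dense2

/-!
# MP_2d493b_co: graphs with a dense core have positive square energy at least `n`
-/

set_option autoImplicit false

namespace Pool.Agent.Results.MP_2d493b_co.DenseCore

open Pool.Agent.H626.SE

theorem herm {V : Type*} [Fintype V] [DecidableEq V] (G : SimpleGraph V) [DecidableRel G.Adj] :
    (G.adjMatrix ℝ).IsHermitian := by
  rw [Matrix.IsHermitian, Matrix.conjTranspose_eq_transpose_of_trivial]
  exact G.isSymm_adjMatrix

open Classical in
/-- The eigenvalues of the adjacency matrix of a finite graph, listed with multiplicity. -/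
noncomputable def eig {V : Type*} [Finite V] (G : SimpleGraph V) : V → ℝ :=
  letI := Fintype.ofFinite V
  (herm G).eigenvalues

/-- The positive square energy `s⁺`: the sum of the squares of the positive eigenvalues. -/
noncomputable def sPlus {V : Type*} [Finite V] (G : SimpleGraph V) : ℝ :=
  letI := Fintype.ofFinite V
  ∑ i, if 0 < eig G i then eig G i ^ 2 else 0

/-- The negative square energy `s⁻`: the sum of the squares of the negative eigenvalues. -/
noncomputable def sMinus {V : Type*} [Finite V] (G : SimpleGraph V) : ℝ :=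
  letI := Fintype.ofFinite V
  ∑ i, if eig G i < 0 then eig G i ^ 2 else 0

open Classical in
lemma edges {V : Type*} [Fintype V] (G : SimpleGraph V) :
    (∑ i, ∑ j, if G.Adj i j then (1 : ℝ) else 0) = 2 * (G.edgeSet.ncard : ℝ) := by
  rw [sum_adj, Set.ncard_eq_toFinset_card']
  rfl

open Classical in
lemma degs {V : Type*} [Fintype V] (G : SimpleGraph V) (i : V) :
    (∑ j, if G.Adj i j then (1 : ℝ) else 0) = ((G.neighborSet i).ncard : ℝ) := by
  rw [Set.ncard_eq_toFinset_card', Finset.sum_ite, Finset.sum_const_zero, add_zero,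
    Finset.sum_const, nsmul_eq_mul, mul_one]
  congr 2
  ext j
  simp

open Classical in
lemma sPlus_eq {V : Type*} [Finite V] (G : SimpleGraph V) :
    letI := Fintype.ofFinite V
    sPlus G = ∑ i, (max ((herm G).eigenvalues i) 0) ^ 2 := by
  letI := Fintype.ofFinite V
  exact sq_plus G (herm G)

open Classical in
lemma sMinus_eq {V : Type*} [Finite V] (G : SimpleGraph V) :
    letI := Fintype.ofFinite V
    sMinus G = ∑ i, (min ((herm G).eigenvalues i) 0) ^ 2 := by
  letI := Fintype.ofFinite V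
  exact sq_minus G (herm G)

lemma many {V : Type*} [Finite V] (G : SimpleGraph V) (N : ℝ)
    (hm : N * (1 + (Nat.card V : ℝ) ^ (1 / 4 : ℝ)) ≤ 2 * (G.edgeSet.ncard : ℝ)) :
    N ≤ sPlus G := by
  classical
  letI := Fintype.ofFinite V
  rw [sPlus_eq]
  rw [Nat.card_eq_fintype_card, ← edges] at hm
  exact many_edges G (herm G) N hm

lemma manyD {V : Type*} [Finite V] (G : SimpleGraph V) (N : ℝ) (hN : (Nat.card V : ℝ) ≤ N)
    (D : ℕ) (hD : ∀ v, (G.neighborSet v).ncard ≤ D)
    (hm : N * (1 + √D) ≤ 2 * (G.edgeSet.ncard : ℝ)) :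
    N ≤ sPlus G := by
  classical
  letI := Fintype.ofFinite V
  rw [sPlus_eq]
  rw [Nat.card_eq_fintype_card] at hN
  rw [← edges] at hm
  refine many_edges' G (herm G) N D hN (fun i => ?_) hm
  refine eig_le_deg G (herm G) D (fun i => ?_) i
  rw [degs]
  exact_mod_cast hD i

lemma avg {V : Type*} [Finite V] (G : SimpleGraph V) :
    (2 * (G.edgeSet.ncard : ℝ)) ^ 2 ≤ (Nat.card V : ℝ) ^ 2 * sPlus G := by
  classical
  letI := Fintype.ofFinite V
  rw [sPlus_eq, Nat.card_eq_fintype_card, ← edges]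
  exact avg_bound G (herm G)

lemma core {V : Type*} [Finite V] (G : SimpleGraph V) (U : Set V) :
    sPlus (G.induce U) + ((Nat.card ↥(Uᶜ) : ℝ) - Nat.card (G.induce Uᶜ).ConnectedComponent)
      ≤ sPlus G := by
  classical
  letI := Fintype.ofFinite V
  letI := Fintype.ofFinite U
  rw [sPlus_eq, sPlus_eq]
  exact core_bound G (herm G) U (herm (G.induce U))

/-- For every finite graph `G` on `n` vertices with `m` edges:

* `s⁻ ≤ n^(1/4) s⁺`; if `n (1 + n^(1/4)) ≤ 2 m`, or `n (1 + √D) ≤ 2 m` with all degrees at most `D`,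
  then `s⁺ ≥ n`.
* Let `U` be a set of `a` vertices which spans `e` edges and let `c` be the number of connected
  components of `G - U`.  Then `s⁺(G) ≥ s⁺(G[U]) + (n - a) - c`, and `s⁺(G) ≥ n` holds if
  `(a + c) (1 + a^(1/4)) ≤ 2 e`, or `(a + c) (1 + √D) ≤ 2 e` with all degrees in `G[U]` at most `D`,
  or `a + c ≤ (2 e / a)²`. -/
theorem result {V : Type*} [Finite V] (G : SimpleGraph V) (n m : ℕ) (hn : Nat.card V = n)
    (hm : G.edgeSet.ncard = m) :
    sMinus G ≤ (n : ℝ) ^ (1 / 4 : ℝ) * sPlus G ∧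
    ((n : ℝ) * (1 + (n : ℝ) ^ (1 / 4 : ℝ)) ≤ 2 * m → (n : ℝ) ≤ sPlus G) ∧
    (∀ D : ℕ, (∀ v, (G.neighborSet v).ncard ≤ D) → (n : ℝ) * (1 + √D) ≤ 2 * m →
      (n : ℝ) ≤ sPlus G) ∧
    ∀ (U : Set V) (a e c : ℕ), Nat.card U = a → (G.induce U).edgeSet.ncard = e →
      Nat.card (G.induce Uᶜ).ConnectedComponent = c →
      sPlus (G.induce U) + ((n : ℝ) - a - c) ≤ sPlus G ∧
      (((a : ℝ) + c) * (1 + (a : ℝ) ^ (1 / 4 : ℝ)) ≤ 2 * e → (n : ℝ) ≤ sPlus G) ∧
      (∀ D : ℕ, (∀ v, ((G.induce U).neighborSet v).ncard ≤ D) →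
        ((a : ℝ) + c) * (1 + √D) ≤ 2 * e → (n : ℝ) ≤ sPlus G) ∧
      ((a : ℝ) + c ≤ (2 * e / a) ^ 2 → (n : ℝ) ≤ sPlus G) := by
  subst hn hm
  refine ⟨?_, many G _, fun D hD h => manyD G _ le_rfl D hD h, ?_⟩
  · classical
    letI := Fintype.ofFinite V
    rw [sPlus_eq, sMinus_eq, Nat.card_eq_fintype_card]
    exact ratio_quarter G (herm G)
  rintro U a e c rfl rfl rfl
  have h1 := core G U
  have h2 : (Nat.card V : ℝ) = Nat.card U + Nat.card ↥(Uᶜ) := by
    have := Set.ncard_add_ncard_compl U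
    rw [← Nat.card_coe_set_eq, ← Nat.card_coe_set_eq] at this
    exact_mod_cast this.symm
  have h3 : (Nat.card U : ℝ) + Nat.card (G.induce Uᶜ).ConnectedComponent ≤ sPlus (G.induce U) →
      (Nat.card V : ℝ) ≤ sPlus G := by
    intro h
    linarith
  refine ⟨by linarith, fun h => h3 (many _ _ h), fun D hD h => h3 (manyD _ _ ?_ D hD h), ?_⟩
  · have : (0 : ℝ) ≤ Nat.card (G.induce Uᶜ).ConnectedComponent := Nat.cast_nonneg _
    linarith
  · intro h
    apply h3
    refine h.trans ?_
    have h4 := avg (G.induce U)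
    rcases (Nat.cast_nonneg (Nat.card U) : (0 : ℝ) ≤ (Nat.card U : ℝ)).lt_or_eq with h5 | h5
    · rw [div_pow, div_le_iff₀ (by positivity)]
      linarith
    · rw [← h5]
      simp only [div_zero]
      norm_num
      letI := Fintype.ofFinite U
      exact Finset.sum_nonneg fun i _ => by
        split_ifs
        · positivity
        · exact le_rfl

end Pool.Agent.Results.MP_2d493b_co.DenseCore
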