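import Pool.Agent.H626.SE.LocalAvg2

/-!
# MP_2d493b_co: a local criterion by the average degree of an induced subgraph
-/

set_option autoImplicit false

namespace Pool.Agent.Results.MP_2d493b_co.LocalAverageDegree

open Pool.Agent.H626.SE

theorem herm {V : Type*} [Fintype V] [DecidableEq V] (G : SimpleGraph V) [DecidableRel G.Adj] :
    (G.adjMatrix ℝ).IsHermitian := by
  rw [Matrix.IsHermitian, Matrix.conjTranspose_eq_transpose_of_trivial]
  exact G.isSymm_adjMatrix

open Classical in
/-- The eigenvalues of the adjacency matrix of a finite graph, listed with multiplicity. -/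
noncomputable def eig {V : Type*} [Fintype V] (G : SimpleGraph V) : V → ℝ :=
  (herm G).eigenvalues

/-- The positive square energy `s⁺`: the sum of the squares of the positive eigenvalues. -/
noncomputable def sPlus {V : Type*} [Fintype V] (G : SimpleGraph V) : ℝ :=
  ∑ i, if 0 < eig G i then eig G i ^ 2 else 0

/-- The number of edges with both ends in the vertex set `U`. -/
noncomputable def spanned {V : Type*} (G : SimpleGraph V) (U : Set V) : ℕ :=
  {e | e ∈ G.edgeSet ∧ ∀ v ∈ e, v ∈ U}.ncard

lemma twice_spanned {V : Type*} [Fintype V] [DecidableEq V] (G : SimpleGraph V)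
    [DecidableRel G.Adj] (U : Finset V) :
    (∑ i ∈ U, ∑ j ∈ U, if G.Adj i j then (1 : ℝ) else 0) = 2 * (spanned G U : ℝ) := by
  classical
  set H : SimpleGraph V :=
    { Adj := fun i j => G.Adj i j ∧ i ∈ U ∧ j ∈ U
      symm := ⟨fun i j h => ⟨h.1.symm, h.2.2, h.2.1⟩⟩
      loopless := ⟨fun i h => G.loopless.irrefl i h.1⟩ } with hH
  have h1 : H.edgeSet = {e | e ∈ G.edgeSet ∧ ∀ v ∈ e, v ∈ (U : Set V)} := by
    ext e
    induction e with
    | _ i j =>
      constructor
      · intro h
        have h' : G.Adj i j ∧ i ∈ U ∧ j ∈ U := h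
        refine ⟨h'.1, fun v hv => ?_⟩
        rcases Sym2.mem_iff.mp hv with rfl | rfl
        · exact h'.2.1
        · exact h'.2.2
      · rintro ⟨h2, h3⟩
        have : G.Adj i j ∧ i ∈ U ∧ j ∈ U :=
          ⟨h2, h3 i (Sym2.mem_mk_left i j), h3 j (Sym2.mem_mk_right i j)⟩
        exact this
  have h2 := sum_adj H
  have h3 : (H.edgeFinset.card : ℝ) = (spanned G U : ℝ) := by
    unfold spanned
    rw [← h1, Set.ncard_eq_toFinset_card']
    rfl
  rw [h3] at h2
  rw [← h2]
  have h4 : ∀ i j, (if H.Adj i j then (1 : ℝ) else 0)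
      = if i ∈ U then (if j ∈ U then (if G.Adj i j then (1 : ℝ) else 0) else 0) else 0 := by
    intro i j
    by_cases hi : i ∈ U
    · by_cases hj : j ∈ U
      · rw [if_pos hi, if_pos hj]
        by_cases hij : G.Adj i j
        · rw [if_pos hij, if_pos (show H.Adj i j from ⟨hij, hi, hj⟩)]
        · rw [if_neg hij, if_neg (fun h : H.Adj i j => hij h.1)]
      · rw [if_pos hi, if_neg hj, if_neg (fun h : H.Adj i j => hj h.2.2)]
    · rw [if_neg hi, if_neg (fun h : H.Adj i j => hi h.2.1)]
  simp_rw [h4]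
  rw [← Finset.sum_filter_add_sum_filter_not Finset.univ (fun i => i ∈ U)]
  rw [Finset.sum_eq_zero (s := Finset.univ.filter (fun i => ¬ i ∈ U)) (fun i hi => by
    rw [Finset.mem_filter] at hi
    refine Finset.sum_eq_zero fun j _ => ?_
    rw [if_neg hi.2]), add_zero, Finset.filter_mem_eq_inter, Finset.univ_inter]
  refine Finset.sum_congr rfl fun i hi => ?_
  rw [← Finset.sum_filter_add_sum_filter_not Finset.univ (fun j => j ∈ U)]
  rw [Finset.sum_eq_zero (s := Finset.univ.filter (fun j => ¬ j ∈ U)) (fun j hj => by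
    rw [Finset.mem_filter] at hj
    rw [if_pos hi, if_neg hj.2]), add_zero, Finset.filter_mem_eq_inter, Finset.univ_inter]
  refine Finset.sum_congr rfl fun j hj => ?_
  rw [if_pos hi, if_pos hj]

/-- Let `G` be a connected graph with `n` vertices and `U` a set of `a ≥ 2` vertices spanning `e`
edges.  If `a √a + √a √(n-a) / 2 ≤ 2 e` (that is, `G[U]` has average degree at least
`√a + √(n/a-1) / 2`) then `s⁺(G) ≥ n`. -/
theorem result {V : Type*} [Fintype V] (G : SimpleGraph V) (hG : G.Connected) (n : ℕ)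
    (hn : Fintype.card V = n) (U : Set V) (a e : ℕ) (ha : U.ncard = a) (he : spanned G U = e)
    (ha2 : 2 ≤ a)
    (h : (a : ℝ) * √(a : ℝ) + 1 / 2 * (√(a : ℝ) * √((n : ℝ) - a)) ≤ 2 * e) :
    (n : ℝ) ≤ sPlus G := by
  classical
  subst hn ha he
  have h1 : sPlus G = ∑ i, (max ((herm G).eigenvalues i) 0) ^ 2 := sq_plus G (herm G)
  rw [h1]
  have h2 : U.ncard = U.toFinset.card := Set.ncard_eq_toFinset_card' U
  have h3 := twice_spanned G U.toFinset
  rw [Set.coe_toFinset] at h3
  refine local_avg2 G (herm G) hG U.toFinset (by rw [← h2]; exact ha2) ?_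
  rw [h3, ← h2]
  exact h

end Pool.Agent.Results.MP_2d493b_co.LocalAverageDegree
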