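import Pool.Agent.H626.SE.LogEdges

/-!
# MP_2d493b_co: connected graphs with more than `c n log D` edges
-/

set_option autoImplicit false

namespace Pool.Agent.Results.MP_2d493b_co.LogDegreeEdges

open Pool.Agent.H626.SE

theorem herm {V : Type*} [Fintype V] [DecidableEq V] (G : SimpleGraph V) [DecidableRel G.Adj] :
    (G.adjMatrix ℝ).IsHermitian := by
  rw [Matrix.IsHermitian, Matrix.conjTranspose_eq_transpose_of_trivial]
  exact G.isSymm_adjMatrix

open Classical in
/-- The eigenvalues of the adjacency matrix of a finite graph, listed with multiplicity. -/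
noncomputable def eig {V : Type*} [Fintype V] (G : SimpleGraph V) : V → ℝ :=
  (herm G).eigenvalues

/-- The positive square energy `s⁺`: the sum of the squares of the positive eigenvalues. -/
noncomputable def sPlus {V : Type*} [Fintype V] (G : SimpleGraph V) : ℝ :=
  ∑ i, if 0 < eig G i then eig G i ^ 2 else 0

/-- The number of neighbours of `v` in the set `U`. -/
noncomputable def deg {V : Type*} (G : SimpleGraph V) (U : Set V) (v : V) : ℕ :=
  {w | w ∈ U ∧ G.Adj v w}.ncard

open Classical in
lemma sPlus_eq {V : Type*} [Fintype V] (G : SimpleGraph V) :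
    sPlus G = ∑ i, (max ((herm G).eigenvalues i) 0) ^ 2 :=
  sq_plus G (herm G)

open Classical in
lemma deg_eq {V : Type*} [Fintype V] (G : SimpleGraph V) (U : Set V) (v : V) :
    (U.toFinset.filter fun w => G.Adj v w).card = deg G U v := by
  unfold deg
  rw [Set.ncard_eq_toFinset_card']
  congr 1
  ext w
  simp

open Classical in
lemma deg_eq' {V : Type*} [Fintype V] (G : SimpleGraph V) (U : Finset V) (v : V) :
    (U.filter fun w => G.Adj v w).card = deg G U v := by
  unfold deg
  rw [Set.ncard_eq_toFinset_card']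
  congr 1
  ext w
  simp

open Classical in
lemma twice_edges {V : Type*} [Fintype V] (G : SimpleGraph V) :
    ∑ i, (Finset.univ.filter fun j => G.Adj i j).card = 2 * G.edgeSet.ncard := by
  rw [Set.ncard_eq_toFinset_card']
  have h1 := G.sum_degrees_eq_twice_card_edges
  have h2 : ∀ i, (Finset.univ.filter fun j => G.Adj i j).card = G.degree i := by
    intro i
    rw [← SimpleGraph.card_neighborFinset_eq_degree]
    congr 1
    ext j
    simp
  simp_rw [h2]
  exact h1

/-- Let `G` be a connected graph with `n` vertices and `m` edges.  Each of the following conditions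
implies `s⁺(G) ≥ n`.

1. There is a nonempty set `U` of `a` vertices each of which has at least `T` neighbours in `U`,
   and `64 n ≤ 9 T a`.
2. Every nonempty vertex set `W` contains a vertex with at most `D` neighbours in `W` (`D ≥ 1`),
   and `64 n (1 + log D) < 9 m`.
3. All degrees are at most `Δ` (`Δ ≥ 1`), and `64 n (1 + log Δ) < 9 m`.
4. `64 n (1 + log (2 m) / 2) < 9 m`. -/
theorem result {V : Type*} [Fintype V] (G : SimpleGraph V) (hG : G.Connected) (n m : ℕ)
    (hn : Fintype.card V = n) (hm : G.edgeSet.ncard = m) :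
    (∀ (U : Set V) (T a : ℕ), U.Nonempty → U.ncard = a → (∀ v ∈ U, T ≤ deg G U v) →
      64 * n ≤ 9 * (T * a) → (n : ℝ) ≤ sPlus G) ∧
    (∀ D : ℝ, 1 ≤ D → (∀ W : Set V, W.Nonempty → ∃ v ∈ W, (deg G W v : ℝ) ≤ D) →
      64 * (n : ℝ) * (1 + Real.log D) < 9 * m → (n : ℝ) ≤ sPlus G) ∧
    (∀ Δ : ℕ, 1 ≤ Δ → (∀ v, deg G Set.univ v ≤ Δ) →
      64 * (n : ℝ) * (1 + Real.log Δ) < 9 * m → (n : ℝ) ≤ sPlus G) ∧
    (64 * (n : ℝ) * (1 + Real.log (2 * m) / 2) < 9 * m → (n : ℝ) ≤ sPlus G) := by
  classical
  subst hn hm
  have key : ∀ D : ℝ, 1 ≤ D → (∀ W : Finset V, W.Nonempty → ∃ v ∈ W, (deg G W v : ℝ) ≤ D) →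
      64 * (Fintype.card V : ℝ) * (1 + Real.log D) < 9 * G.edgeSet.ncard →
      (Fintype.card V : ℝ) ≤ sPlus G := by
    intro D hD hdeg hm
    rw [sPlus_eq]
    refine log_edges G (herm G) hG D hD ?_ ?_
    · intro W hW
      obtain ⟨v, hv, h⟩ := hdeg W hW
      refine ⟨v, hv, ?_⟩
      rw [deg_eq']
      exact h
    · rw [twice_edges]
      push_cast
      linarith
  refine ⟨?_, ?_, ?_, ?_⟩
  · intro U T a hU ha hd hT
    rw [sPlus_eq]
    refine dense_part G (herm G) hG U.toFinset (by
      rw [Set.toFinset_nonempty]; exact hU) T (fun v hv => ?_) ?_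
    · rw [deg_eq]
      exact hd v (Set.mem_toFinset.mp hv)
    · rw [← Set.ncard_eq_toFinset_card', ha]
      exact hT
  · intro D hD hdeg hm
    refine key D hD (fun W hW => ?_) hm
    obtain ⟨v, hv, h⟩ := hdeg W hW
    exact ⟨v, hv, h⟩
  · intro Δ hΔ hdeg hm
    refine key Δ (by exact_mod_cast hΔ) (fun W hW => ?_) hm
    obtain ⟨v, hv⟩ := hW
    refine ⟨v, hv, ?_⟩
    have h1 : deg G W v ≤ deg G Set.univ v := by
      unfold deg
      refine Set.ncard_le_ncard ?_ (Set.toFinite _)
      rintro w ⟨_, h⟩
      exact ⟨trivial, h⟩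
    exact_mod_cast h1.trans (hdeg v)
  · intro hm
    have hm0 : 1 ≤ G.edgeSet.ncard := by
      by_contra hc
      have h0 : G.edgeSet.ncard = 0 := by omega
      rw [h0] at hm
      have h1 : (0 : ℝ) ≤ Fintype.card V := Nat.cast_nonneg _
      push_cast at hm
      rw [mul_zero, Real.log_zero] at hm
      linarith
    have hm1 : (1 : ℝ) ≤ G.edgeSet.ncard := by exact_mod_cast hm0
    refine key (√(2 * G.edgeSet.ncard)) ?_ (fun W hW => ?_) ?_
    · rw [Real.one_le_sqrt]
      linarith
    · obtain ⟨v, hv, hmin⟩ := Finset.exists_min_image W (fun v => deg G W v) hW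
      refine ⟨v, hv, ?_⟩
      refine Real.le_sqrt_of_sq_le ?_
      have h1 : deg G W v + 1 ≤ W.card := by
        rw [← deg_eq']
        have : (W.filter fun w => G.Adj v w) ⊆ W.erase v := by
          intro w hw
          rw [Finset.mem_filter] at hw
          exact Finset.mem_erase.mpr ⟨fun h => G.loopless.irrefl v (h ▸ hw.2), hw.1⟩
        have := Finset.card_le_card this
        rw [Finset.card_erase_of_mem hv] at this
        have h3 : 0 < W.card := Finset.card_pos.mpr hW
        omega
      have h2 : W.card * deg G W v ≤ 2 * G.edgeSet.ncard := by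
        rw [← twice_edges]
        calc W.card * deg G W v = ∑ i ∈ W, deg G W v := by
              rw [Finset.sum_const, smul_eq_mul]
          _ ≤ ∑ i ∈ W, deg G W i := Finset.sum_le_sum fun i hi => hmin i hi
          _ ≤ ∑ i ∈ W, (Finset.univ.filter fun j => G.Adj i j).card := by
              refine Finset.sum_le_sum fun i _ => ?_
              rw [← deg_eq']
              exact Finset.card_le_card (Finset.filter_subset_filter _ (Finset.subset_univ _))
          _ ≤ ∑ i, (Finset.univ.filter fun j => G.Adj i j).card :=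
              Finset.sum_le_sum_of_subset (Finset.subset_univ _)
      have h3 : deg G W v ^ 2 ≤ 2 * G.edgeSet.ncard := by nlinarith
      exact_mod_cast h3
    · rw [Real.log_sqrt (by linarith)]
      exact hm

end Pool.Agent.Results.MP_2d493b_co.LogDegreeEdges
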