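import Pool.Agent.H626.SE.MinDeg

/-!
# MP_2d493b_co: lower bounds for the positive square energy by truncated degrees
-/

set_option autoImplicit false

namespace Pool.Agent.Results.MP_2d493b_co.MinDegreeThree

open Pool.Agent.H626.SE

theorem herm {V : Type*} [Fintype V] [DecidableEq V] (G : SimpleGraph V) [DecidableRel G.Adj] :
    (G.adjMatrix ℝ).IsHermitian := by
  rw [Matrix.IsHermitian, Matrix.conjTranspose_eq_transpose_of_trivial]
  exact G.isSymm_adjMatrix

open Classical in
/-- The eigenvalues of the adjacency matrix of a finite graph, listed with multiplicity. -/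
noncomputable def eig {V : Type*} [Fintype V] (G : SimpleGraph V) : V → ℝ :=
  (herm G).eigenvalues

/-- The positive square energy `s⁺`: the sum of the squares of the positive eigenvalues. -/
noncomputable def sPlus {V : Type*} [Fintype V] (G : SimpleGraph V) : ℝ :=
  ∑ i, if 0 < eig G i then eig G i ^ 2 else 0

/-- The number of neighbours of `v` in the set `U`. -/
noncomputable def deg {V : Type*} (G : SimpleGraph V) (U : Set V) (v : V) : ℕ :=
  {w | w ∈ U ∧ G.Adj v w}.ncard

/-- The number of connected components of `G - U`. -/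
noncomputable def outside {V : Type*} (G : SimpleGraph V) (U : Set V) : ℕ :=
  Nat.card (G.induce Uᶜ).ConnectedComponent

open Classical in
/-- The sum over `v ∈ U` of `min d T`, where `d` is the number of neighbours of `v` in `U`. -/
noncomputable def truncSum {V : Type*} [Fintype V] (G : SimpleGraph V) (U : Set V) (T : ℕ) : ℕ :=
  ∑ v, if v ∈ U then min (deg G U v) T else 0

open Classical in
lemma sPlus_eq {V : Type*} [Fintype V] (G : SimpleGraph V) :
    sPlus G = ∑ i, (max ((herm G).eigenvalues i) 0) ^ 2 :=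
  sq_plus G (herm G)

lemma sPlus_nonneg {V : Type*} [Fintype V] (G : SimpleGraph V) : 0 ≤ sPlus G := by
  rw [sPlus_eq]
  exact Finset.sum_nonneg fun i _ => sq_nonneg _

open Classical in
lemma core {V : Type*} [Fintype V] (G : SimpleGraph V) (U : Set V) [Fintype U] :
    sPlus (G.induce U) + ((Nat.card ↥(Uᶜ) : ℝ) - outside G U) ≤ sPlus G := by
  rw [sPlus_eq, sPlus_eq]
  exact core_bound G (herm G) U (herm (G.induce U))

lemma compl_card {V : Type*} [Fintype V] (U : Set V) :
    (Fintype.card V : ℝ) = U.ncard + Nat.card ↥(Uᶜ) := by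
  have := Set.ncard_add_ncard_compl U
  rw [← Nat.card_coe_set_eq Uᶜ, Nat.card_eq_fintype_card (α := V)] at this
  exact_mod_cast this.symm

/-- the selection inequality -/
lemma selection {V : Type*} [Fintype V] (G : SimpleGraph V) (R : V → V → Prop) (T : ℕ)
    (hT : 1 ≤ T) (hR : ∀ i j, R i j → G.Adj i j) (hRT : ∀ i, {j | R i j}.ncard ≤ T) :
    4 * ({p : V × V | R p.1 p.2}.ncard : ℝ) ^ 2 ≤ sPlus G * ((3 + 2 * √(T : ℝ)) *
      {p : V × V | R p.1 p.2}.ncard + 2 * {p : V × V | R p.1 p.2 ∧ R p.2 p.1}.ncard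
        + T * Fintype.card V) := by
  classical
  set r : V → V → ℝ := fun i j => if R i j then 1 else 0 with hr
  have h1 : ∀ i j, r i j = 0 ∨ (r i j = 1 ∧ G.Adj i j) := by
    intro i j
    by_cases h : R i j
    · exact Or.inr ⟨if_pos h, hR i j h⟩
    · exact Or.inl (if_neg h)
  have h2 : ∀ i, ∑ j, r i j = (({j | R i j}.ncard : ℕ) : ℝ) := by
    intro i
    rw [Set.ncard_eq_toFinset_card', hr]
    simp only [Finset.sum_ite, Finset.sum_const_zero, add_zero, Finset.sum_const,
      nsmul_eq_mul, mul_one, Set.toFinset_ofPred]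
  have h3 : ∑ i, ∑ j, r i j = ({p : V × V | R p.1 p.2}.ncard : ℝ) := by
    rw [← Finset.sum_product', Set.ncard_eq_toFinset_card', hr]
    simp only [Finset.univ_product_univ, Finset.sum_ite, Finset.sum_const_zero, add_zero,
      Finset.sum_const, nsmul_eq_mul, mul_one, Set.toFinset_ofPred]
  have h4 : ∑ i, ∑ j, r i j * r j i
      = ({p : V × V | R p.1 p.2 ∧ R p.2 p.1}.ncard : ℝ) := by
    rw [← Finset.sum_product', Set.ncard_eq_toFinset_card']
    have : ∀ p : V × V, r p.1 p.2 * r p.2 p.1 = if R p.1 p.2 ∧ R p.2 p.1 then 1 else 0 := by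
      intro p
      simp only [hr]
      by_cases ha : R p.1 p.2
      · by_cases hb : R p.2 p.1
        · rw [if_pos ha, if_pos hb, if_pos ⟨ha, hb⟩, mul_one]
        · rw [if_pos ha, if_neg hb, if_neg (fun hh : R p.1 p.2 ∧ R p.2 p.1 => hb hh.2), mul_zero]
      · rw [if_neg ha, if_neg (fun hh : R p.1 p.2 ∧ R p.2 p.1 => ha hh.1), zero_mul]
    simp_rw [this]
    simp only [Finset.univ_product_univ, Finset.sum_ite, Finset.sum_const_zero, add_zero,
      Finset.sum_const, nsmul_eq_mul, mul_one, Set.toFinset_ofPred]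
  have h5 := sel_bound G (herm G) r h1 T (by exact_mod_cast hT) (fun i => by
    rw [h2]
    exact_mod_cast hRT i)
  rw [h3, h4] at h5
  rw [sPlus_eq]
  exact h5

/-- the truncated degree inequality -/
lemma trunc {V : Type*} [Fintype V] (G : SimpleGraph V) (T : ℕ) (hT : 1 ≤ T) :
    4 * ((∑ v, min (G.neighborSet v).ncard T : ℕ) : ℝ) ^ 2 ≤ sPlus G *
      ((5 + 2 * √(T : ℝ)) * ((∑ v, min (G.neighborSet v).ncard T : ℕ) : ℝ)
        + T * Fintype.card V) := by
  classical
  have h1 := trunc_bound G (herm G) T hT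
  have h2 : ∀ v, (Finset.univ.filter fun j => G.Adj v j).card = (G.neighborSet v).ncard := by
    intro v
    rw [Set.ncard_eq_toFinset_card']
    congr 1
    ext w
    simp
  simp_rw [h2] at h1
  rw [sPlus_eq]
  exact h1

lemma deg_induce {V : Type*} (G : SimpleGraph V) (U : Set V) (v : U) :
    ((G.induce U).neighborSet v).ncard = deg G U v.1 := by
  unfold deg
  rw [← Set.ncard_image_of_injective _ (Subtype.val_injective (p := fun x => x ∈ U))]
  congr 1
  ext w
  simp only [Set.mem_image, SimpleGraph.mem_neighborSet, SimpleGraph.comap_adj,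
    Function.Embedding.subtype_apply, Subtype.exists, exists_and_right, exists_eq_right,
    Set.mem_ofPred_eq]
  constructor
  · rintro ⟨h1, h2⟩
    exact ⟨h1, h2⟩
  · rintro ⟨h1, h2⟩
    exact ⟨h1, h2⟩

lemma deg_univ {V : Type*} (G : SimpleGraph V) (v : V) :
    (G.neighborSet v).ncard = deg G Set.univ v := by
  unfold deg
  congr 1
  ext w
  simp

lemma truncU {V : Type*} [Fintype V] (G : SimpleGraph V) (U : Set V) [Fintype U] (T : ℕ)
    (hT : 1 ≤ T) : 4 * (truncSum G U T : ℝ) ^ 2 ≤ sPlus (G.induce U) *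
      ((5 + 2 * √(T : ℝ)) * (truncSum G U T : ℝ) + T * U.ncard) := by
  classical
  have h1 := trunc (G.induce U) T hT
  have h2 : (∑ v, min ((G.induce U).neighborSet v).ncard T : ℕ) = truncSum G U T := by
    unfold truncSum
    simp_rw [deg_induce]
    rw [← Finset.sum_filter]
    refine (Finset.sum_subtype _ (fun x => ?_) (fun x => min (deg G U x) T)).symm
    simp
  rw [h2] at h1
  rw [← Nat.card_coe_set_eq, Nat.card_eq_fintype_card]
  exact h1

lemma minDeg {V : Type*} [Fintype V] (G : SimpleGraph V) (d : ℕ)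
    (hd : ∀ v, d ≤ (G.neighborSet v).ncard) :
    2 * (d : ℝ) * Fintype.card V ≤ sPlus G * (3 + √(d : ℝ)) := by
  have hS := sPlus_nonneg G
  have hsq : 0 ≤ √(d : ℝ) := Real.sqrt_nonneg _
  rcases Nat.eq_zero_or_pos d with h0 | h0
  · subst h0
    have : 0 ≤ sPlus G * (3 + √((0 : ℕ) : ℝ)) := mul_nonneg hS (by positivity)
    simpa using this
  rcases Nat.eq_zero_or_pos (Fintype.card V) with hn | hn
  · rw [hn]
    have : 0 ≤ sPlus G * (3 + √(d : ℝ)) := mul_nonneg hS (by positivity)
    simpa using this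
  have h1 := trunc G d h0
  have h2 : (∑ v, min (G.neighborSet v).ncard d : ℕ) = d * Fintype.card V := by
    rw [Finset.sum_congr rfl fun v _ => min_eq_right (hd v), Finset.sum_const, smul_eq_mul,
      Finset.card_univ, mul_comm]
  rw [h2] at h1
  push_cast at h1
  have h3 : (0 : ℝ) < d * Fintype.card V := by positivity
  have h4 : (d * Fintype.card V : ℝ) * (2 * (2 * (d : ℝ) * Fintype.card V))
      ≤ (d * Fintype.card V : ℝ) * (2 * (sPlus G * (3 + √(d : ℝ)))) := by
    nlinarith [h1]
  have h5 := le_of_mul_le_mul_left h4 h3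
  linarith

/-- Let `G` be a finite graph on `n` vertices.

1. (Selection inequality.)  Let `R` be a set of ordered pairs of adjacent vertices in which every
   vertex is the first entry of at most `T` pairs (`T ≥ 1`), `M` the number of pairs in `R` and
   `M₂` the number of those whose reverse is in `R`.  Then
   `4 M² ≤ s⁺ ((3 + 2√T) M + 2 M₂ + T n)`.
2. Let `U` be a set of `a` vertices, `c` the number of connected components of `G - U`, and
   `M > 0` the sum of `min d T` over the degrees `d` of `G[U]`.  If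
   `(a + c) ((5 + 2√T) M + T a) ≤ 4 M²` then `s⁺(G) ≥ n`.
3. If `G[U]` has minimum degree at least `d` and `(a + c) (3 + √d) ≤ 2 d a` then `s⁺(G) ≥ n`.
4. If all degrees are at least `d` then `2 d n ≤ (3 + √d) s⁺(G)`.
5. If all degrees are at least `3` then `s⁺(G) ≥ 1.26 n`.
6. If the sum of `min (deg v) 3` over all vertices is at least `2.43 n`, then `s⁺(G) ≥ n`. -/
theorem result {V : Type*} [Fintype V] (G : SimpleGraph V) (n : ℕ) (hn : Fintype.card V = n) :
    (∀ (R : V → V → Prop) (T M M₂ : ℕ), 1 ≤ T → (∀ i j, R i j → G.Adj i j) →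
      (∀ i, {j | R i j}.ncard ≤ T) → {p : V × V | R p.1 p.2}.ncard = M →
      {p : V × V | R p.1 p.2 ∧ R p.2 p.1}.ncard = M₂ →
      4 * (M : ℝ) ^ 2 ≤ sPlus G * ((3 + 2 * √(T : ℝ)) * M + 2 * M₂ + T * n)) ∧
    (∀ (U : Set V) (T a c M : ℕ), 1 ≤ T → U.ncard = a → outside G U = c → truncSum G U T = M →
      0 < M → ((a : ℝ) + c) * ((5 + 2 * √(T : ℝ)) * M + T * a) ≤ 4 * (M : ℝ) ^ 2 →
      (n : ℝ) ≤ sPlus G) ∧
    (∀ (U : Set V) (d a c : ℕ), U.ncard = a → outside G U = c → (∀ v ∈ U, d ≤ deg G U v) →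
      ((a : ℝ) + c) * (3 + √(d : ℝ)) ≤ 2 * d * a → (n : ℝ) ≤ sPlus G) ∧
    (∀ d : ℕ, (∀ v, d ≤ deg G Set.univ v) → 2 * (d : ℝ) * n ≤ (3 + √(d : ℝ)) * sPlus G) ∧
    ((∀ v, 3 ≤ deg G Set.univ v) → (1.26 : ℝ) * n ≤ sPlus G) ∧
    ((2.43 : ℝ) * n ≤ truncSum G Set.univ 3 → (n : ℝ) ≤ sPlus G) := by
  subst hn
  have hS := sPlus_nonneg G
  have key : ∀ (U : Set V) [Fintype U] (a c : ℕ), U.ncard = a → outside G U = c →
      (a : ℝ) + c ≤ sPlus (G.induce U) → (Fintype.card V : ℝ) ≤ sPlus G := by
    intro U _ a c ha hc h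
    have h1 := core G U
    have h2 := compl_card U
    rw [hc] at h1
    rw [ha] at h2
    linarith
  refine ⟨?_, ?_, ?_, ?_, ?_, ?_⟩
  · rintro R T M M₂ hT hR hRT rfl rfl
    exact selection G R T hT hR hRT
  · intro U T a c M hT ha hc hM hM0 h
    have : Fintype U := Fintype.ofFinite U
    refine key U a c ha hc ?_
    have h1 := truncU G U T hT
    rw [hM, ha] at h1
    have h2 : (0 : ℝ) < M := by exact_mod_cast hM0
    have h3 : (0 : ℝ) < (5 + 2 * √(T : ℝ)) * M + T * a := by positivity
    exact le_of_mul_le_mul_right (h.trans h1) h3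
  · intro U d a c ha hc hd h
    have : Fintype U := Fintype.ofFinite U
    refine key U a c ha hc ?_
    have h1 := minDeg (G.induce U) d (fun v => by
      rw [deg_induce]
      exact hd v.1 v.2)
    rw [← Nat.card_eq_fintype_card, Nat.card_coe_set_eq, ha] at h1
    have h3 : (0 : ℝ) < 3 + √(d : ℝ) := by positivity
    exact le_of_mul_le_mul_right (h.trans h1) h3
  · intro d hd
    have h1 := minDeg G d (fun v => by rw [deg_univ]; exact hd v)
    linarith
  · intro hd
    have h1 := minDeg G 3 (fun v => by rw [deg_univ]; exact hd v)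
    have h2 : √(((3 : ℕ) : ℝ)) ≤ 1.7321 := by
      rw [Real.sqrt_le_left (by norm_num)]
      norm_num
    have h3 : sPlus G * (3 + √(((3 : ℕ) : ℝ))) ≤ sPlus G * 4.7321 :=
      mul_le_mul_of_nonneg_left (by linarith) hS
    have h4 : (0 : ℝ) ≤ Fintype.card V := Nat.cast_nonneg _
    push_cast at h1 h3
    linarith
  · intro h
    have hM : (∑ v, min (G.neighborSet v).ncard 3 : ℕ) = truncSum G Set.univ 3 := by
      unfold truncSum
      refine Finset.sum_congr rfl fun v _ => ?_
      rw [if_pos (Set.mem_univ v), deg_univ]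
    have h1 := trunc G 3 (by norm_num)
    rw [hM] at h1
    set M : ℝ := (truncSum G Set.univ 3 : ℝ)
    have h2 : √(((3 : ℕ) : ℝ)) ≤ 1.7321 := by
      rw [Real.sqrt_le_left (by norm_num)]
      norm_num
    have h4 : (0 : ℝ) ≤ Fintype.card V := Nat.cast_nonneg _
    have hM0 : 0 ≤ M := Nat.cast_nonneg _
    have h3 : sPlus G * ((5 + 2 * √(((3 : ℕ) : ℝ))) * M + ((3 : ℕ) : ℝ) * Fintype.card V)
        ≤ sPlus G * (8.4642 * M + 3 * Fintype.card V) := by
      refine mul_le_mul_of_nonneg_left ?_ hS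
      push_cast
      nlinarith
    have h5 := h1.trans h3
    rcases h4.lt_or_eq with h6 | h6
    swap
    · rw [← h6]
      exact hS
    have h7 : (Fintype.card V : ℝ) * (8.4642 * M + 3 * Fintype.card V) ≤ 4 * M ^ 2 := by
      nlinarith [mul_nonneg h4 (sub_nonneg.mpr h), mul_nonneg hM0 (sub_nonneg.mpr h)]
    exact le_of_mul_le_mul_right (h7.trans h5) (by positivity)

end Pool.Agent.Results.MP_2d493b_co.MinDegreeThree
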